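import Pool.Agent.H46.Jac.Ana

set_option autoImplicit false

/-!
# An upper bound for the dimensions of the spaces of connected trivalent Jacobi diagrams

`a_d ≤ (4608 d / log d) ^ d` for all `d ≥ 2`.
-/

namespace Pool.Agent.Results.MP_e37104_gt.UpperBound

open Pool.Agent.H46.Jac

/-- For every `d ≥ 2`, the dimension `a_d` of the space of connected trivalent Jacobi diagrams with
`2d` vertices satisfies `a_d ≤ (4608 d / log d) ^ d`. -/
theorem result (d : ℕ) (hd : 2 ≤ d) :
    (aDim d : ℝ) ≤ (4608 * (d : ℝ) / Real.log (d : ℝ)) ^ d :=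
  aDim_bound d hd

end Pool.Agent.Results.MP_e37104_gt.UpperBound
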